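import Pool.Agent.H268Z.Betti.Syz

set_option autoImplicit false

namespace Pool.Agent.H268Z.Betti

open Function LinearMap MvPolynomial

section Kos

variable {A : Type} [CommRing A] {n : ℕ} (τ : Fin n → A)

/-- substitute the first `k` variables -/
noncomputable def sub (k : ℕ) : MvPolynomial (Fin n) A →ₐ[A] MvPolynomial (Fin n) A :=
  aeval (fun j => if j.val < k then C (τ j) else X j)

/-- substitute one variable -/
noncomputable def sub1 (l : Fin n) : MvPolynomial (Fin n) A →ₐ[A] MvPolynomial (Fin n) A :=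
  aeval (fun j => if j = l then C (τ j) else X j)

/-- the regular sequence -/
noncomputable def psi (l : Fin n) : MvPolynomial (Fin n) A := X l - C (τ l)

theorem sub_X (k : ℕ) (j : Fin n) : sub τ k (X j) = if j.val < k then C (τ j) else X j :=
  aeval_X _ _

theorem sub1_X (l j : Fin n) : sub1 τ l (X j) = if j = l then C (τ j) else X j :=
  aeval_X _ _

theorem sub_C (k : ℕ) (a : A) : sub τ k (C a) = C a := by simp [sub]

theorem sub1_C (l : Fin n) (a : A) : sub1 τ l (C a) = C a := by simp [sub1]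

theorem sub_zero (b : MvPolynomial (Fin n) A) : sub τ 0 b = b := by
  have : sub τ 0 = AlgHom.id A _ := by
    apply MvPolynomial.algHom_ext
    intro j
    simp [sub]
  rw [this]; rfl

theorem sub_idem (k : ℕ) (b : MvPolynomial (Fin n) A) : sub τ k (sub τ k b) = sub τ k b := by
  have : (sub τ k).comp (sub τ k) = sub τ k := by
    apply MvPolynomial.algHom_ext
    intro j
    rw [AlgHom.comp_apply, sub_X]
    by_cases h : j.val < k
    · rw [if_pos h, sub_C]
    · rw [if_neg h, sub_X, if_neg h]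
  exact AlgHom.congr_fun this b

theorem sub_succ (l : Fin n) (b : MvPolynomial (Fin n) A) :
    sub τ (l.val + 1) b = sub1 τ l (sub τ l.val b) := by
  have : sub τ (l.val + 1) = (sub1 τ l).comp (sub τ l.val) := by
    apply MvPolynomial.algHom_ext
    intro j
    rw [AlgHom.comp_apply, sub_X, sub_X]
    by_cases h : j.val < l.val
    · have h' : j.val < l.val + 1 := by omega
      rw [if_pos h, if_pos h', sub1_C]
    · rw [if_neg h, sub1_X]
      by_cases h2 : j = l
      · subst h2
        rw [if_pos rfl, if_pos (Nat.lt_succ_self _)]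
      · have h' : ¬ j.val < l.val + 1 := by
          intro h3
          exact h2 (Fin.ext (by omega))
        rw [if_neg h', if_neg h2]
  exact AlgHom.congr_fun this b

theorem sub1_dvd (l : Fin n) (b : MvPolynomial (Fin n) A) : psi τ l ∣ b - sub1 τ l b := by
  rw [← Ideal.mem_span_singleton, ← Ideal.Quotient.eq]
  have : (Ideal.Quotient.mkₐ A (Ideal.span {psi τ l})) =
      (Ideal.Quotient.mkₐ A (Ideal.span {psi τ l})).comp (sub1 τ l) := by
    apply MvPolynomial.algHom_ext
    intro j
    by_cases h : j = l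
    · subst h
      simp only [Ideal.Quotient.mkₐ_eq_mk, AlgHom.coe_comp, comp_apply, sub1, aeval_X, if_true]
      rw [Ideal.Quotient.eq]
      exact Ideal.subset_span rfl
    · simp [sub1, h]
  exact AlgHom.congr_fun this b

theorem sub_psi_self (l : Fin n) : sub τ l.val (psi τ l) = psi τ l := by
  simp [sub, psi]

theorem sub_psi_succ (l : Fin n) : sub τ (l.val + 1) (psi τ l) = 0 := by
  simp [sub, psi]

theorem psi_ne [Nontrivial A] (l : Fin n) : psi τ l ≠ 0 := by
  intro h
  have h1 := congrArg (coeff (Finsupp.single l 1)) h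
  have h3 : ¬ (0 : Fin n →₀ ℕ) = Finsupp.single l 1 := by
    intro h2
    have := congrArg (fun f => f l) h2
    simp at this
  rw [psi, coeff_sub, coeff_X, coeff_C, if_neg h3, coeff_zero] at h1
  simp at h1

/-- the ideals of the regular sequence -/
noncomputable def JJ (k : ℕ) : Ideal (MvPolynomial (Fin n) A) := RingHom.ker (sub τ k)

theorem mem_JJ (k : ℕ) (b : MvPolynomial (Fin n) A) : b ∈ JJ τ k ↔ sub τ k b = 0 := Iff.rfl

theorem JJ_le (l : Fin n) : JJ τ l.val ≤ JJ τ (l.val + 1) := by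
  intro b hb
  rw [mem_JJ] at hb ⊢
  rw [sub_succ, hb, map_zero]

theorem mem_JJ_succ (l : Fin n) (b : MvPolynomial (Fin n) A) :
    b ∈ JJ τ (l.val + 1) ↔ ∃ c, psi τ l * c - b ∈ JJ τ l.val := by
  constructor
  · intro hb
    rw [mem_JJ, sub_succ] at hb
    obtain ⟨c, hc⟩ := sub1_dvd τ l (sub τ l.val b)
    refine ⟨c, ?_⟩
    rw [← hc, hb, _root_.sub_zero, mem_JJ, map_sub, sub_idem, sub_self]
  · rintro ⟨c, hc⟩
    have h1 := JJ_le τ l hc
    rw [mem_JJ, map_sub, map_mul, sub_psi_succ, zero_mul, zero_sub, neg_eq_zero] at h1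
    exact h1

theorem koszul [IsDomain A] : ∀ (k : ℕ), k + 1 ≤ n →
    ∃ (F : Type) (_ : AddCommGroup F) (_ : Module (MvPolynomial (Fin n) A) F)
      (_ : Module.Free (MvPolynomial (Fin n) A) F) (_ : Module.Finite (MvPolynomial (Fin n) A) F)
      (i : MvPolynomial (Fin n) A →ₗ[MvPolynomial (Fin n) A] F), Injective i ∧
      (∀ l : Fin n, l.val < k + 1 → ∃ p : F →ₗ[MvPolynomial (Fin n) A] MvPolynomial (Fin n) A,
        ∀ b, p (i b) = psi τ l * b) ∧
      Syz (MvPolynomial (Fin n) A) (Cok i) k (MvPolynomial (Fin n) A ⧸ JJ τ (k + 1)) := by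
  intro k
  induction k with
  | zero =>
    intro hk
    let l : Fin n := ⟨0, by omega⟩
    refine ⟨MvPolynomial (Fin n) A, inferInstance, inferInstance, inferInstance, inferInstance,
      psi τ l • LinearMap.id, ?_, ?_, ?_⟩
    · intro a b hab
      exact mul_left_cancel₀ (psi_ne τ l) hab
    · intro l' hl'
      have : l' = l := Fin.ext (by simp [l]; omega)
      subst this
      exact ⟨LinearMap.id, fun b => rfl⟩
    · refine ⟨(JJ τ (0 + 1)).mkQ, Submodule.mkQ_surjective _, fun y => ?_⟩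
      rw [Submodule.mkQ_apply, Submodule.Quotient.mk_eq_zero]
      refine (mem_JJ_succ τ l y).trans ?_
      constructor
      · rintro ⟨c, hc⟩
        rw [mem_JJ] at hc
        exact ⟨c, sub_eq_zero.mp ((sub_zero τ _).symm.trans hc)⟩
      · rintro ⟨c, rfl⟩
        refine ⟨c, ?_⟩
        have : psi τ l * c - (psi τ l • (LinearMap.id : MvPolynomial (Fin n) A →ₗ[MvPolynomial (Fin n) A] MvPolynomial (Fin n) A)) c = 0 := sub_self _
        rw [this]
        exact zero_mem _
  | succ k ih =>
    intro hk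
    obtain ⟨F, _, _, _, _, i, hi, hp, h⟩ := ih (by omega)
    let l : Fin n := ⟨k + 1, by omega⟩
    have hle : JJ τ (k + 1) ≤ JJ τ (k + 1 + 1) := JJ_le τ l
    have h2 := cone i hi k (psi τ l) (N := MvPolynomial (Fin n) A ⧸ JJ τ (k + 1))
      (G := Fin 0 → MvPolynomial (Fin n) A) (W := MvPolynomial (Fin n) A ⧸ JJ τ (k + 1 + 1))
      0 (Submodule.factor hle ∘ₗ fst _ _ _) ?_ ?_ ?_ h
    · refine ⟨MvPolynomial (Fin n) A × F, inferInstance, inferInstance, inferInstance,
        inferInstance, _, ?_, ?_, h2⟩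
      · intro a b hab
        exact hi (congrArg Prod.snd hab)
      · intro l' hl'
        by_cases h3 : l'.val < k + 1
        · obtain ⟨p, hp'⟩ := hp l' h3
          exact ⟨p ∘ₗ snd _ _ _, fun b => hp' b⟩
        · have : l' = l := Fin.ext (by simp [l]; omega)
          subst this
          refine ⟨((-1 : MvPolynomial (Fin n) A) ^ (k + 1)) • fst _ _ _, fun b => ?_⟩
          change (-1) ^ (k + 1) * (((-1) ^ (k + 1) * psi τ l) * b) = _
          rw [← mul_assoc, ← mul_assoc, ← mul_pow]
          simp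
    · intro x hx _
      obtain ⟨b, rfl⟩ := Submodule.mkQ_surjective _ x
      rw [← map_smul, Submodule.mkQ_apply, Submodule.Quotient.mk_eq_zero, mem_JJ, smul_eq_mul,
        map_mul] at hx
      have h4 : sub τ (k + 1) (psi τ l) = psi τ l := sub_psi_self τ l
      rw [h4] at hx
      rw [Submodule.mkQ_apply, Submodule.Quotient.mk_eq_zero, mem_JJ]
      exact (mul_eq_zero.mp hx).resolve_left (psi_ne τ l)
    · intro x
      obtain ⟨b, rfl⟩ := Submodule.mkQ_surjective _ x
      exact ⟨(Submodule.mkQ _ b, 0), rfl⟩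
    · rintro ⟨x, g⟩
      obtain ⟨b, rfl⟩ := Submodule.mkQ_surjective _ x
      change Submodule.Quotient.mk b = 0 ↔ _
      rw [Submodule.Quotient.mk_eq_zero]
      refine (mem_JJ_succ τ l b).trans ?_
      constructor
      · rintro ⟨c, hc⟩
        refine ⟨Submodule.mkQ _ c, Prod.ext ?_ (Subsingleton.elim _ _)⟩
        change psi τ l • Submodule.mkQ _ c = Submodule.mkQ _ b
        rw [← map_smul, Submodule.mkQ_apply, Submodule.mkQ_apply, Submodule.Quotient.eq]
        exact hc
      · rintro ⟨x, hx⟩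
        obtain ⟨c, rfl⟩ := Submodule.mkQ_surjective _ x
        refine ⟨c, ?_⟩
        have h5 : psi τ l • Submodule.mkQ (JJ τ (k + 1)) c = Submodule.mkQ _ b :=
          congrArg Prod.fst hx
        rw [← map_smul, Submodule.mkQ_apply, Submodule.mkQ_apply, Submodule.Quotient.eq] at h5
        exact h5

end Kos

section Gens

variable {S : Type} [CommRing S]

/-- generated by at most `N` elements -/
def Gen (S : Type) [CommRing S] (N : ℕ) (M : Type) [AddCommGroup M] [Module S M] : Prop :=
  ∃ r : ℕ, r ≤ N ∧ ∃ f : (Fin r → S) →ₗ[S] M, Surjective f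

theorem inv_gen (N : ℕ) : Inv S (Gen S N) := by
  rintro M M' _ _ _ _ e ⟨r, hr, f, hf⟩
  exact ⟨r, hr, e.toLinearMap ∘ₗ f, e.surjective.comp hf⟩

/-- cancelling all but one of the relations -/
theorem stable_one {Z F M ι : Type} [AddCommGroup Z] [Module S Z] [AddCommGroup F] [Module S F]
    [AddCommGroup M] [Module S M] [Module.Free S F] [Module.Finite S F] [Fintype ι]
    (bb : Module.Basis ι S Z) (w : ι) (deg : ι → ℕ) (i : Z →ₗ[S] F)
    (ρ : ∀ a : ι, a ≠ w → (F →ₗ[S] S))
    (h1 : ∀ a ha, ρ a ha (i (bb a)) = -1)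
    (h2 : ∀ a ha a', a' ≠ a → ρ a ha (i (bb a')) ≠ 0 → deg a < deg a')
    (f : F →ₗ[S] M) (hf : Surjective f) (hex : ∀ y, f y = 0 ↔ ∃ z, i z = y) :
    Syz S (Gen S 1) 1 (M × ({a // a ≠ w} → S)) := by
  classical
  let R : F →ₗ[S] ({a // a ≠ w} → S) := LinearMap.pi (fun a => ρ a.1 a.2)
  let E : ({a // a ≠ w} → S) →ₗ[S] Z := Fintype.linearCombination S (fun a => bb a.1)
  let T : ({a // a ≠ w} → S) →ₗ[S] ({a // a ≠ w} → S) := R ∘ₗ i ∘ₗ E
  have hE : ∀ a : {a // a ≠ w}, E (Pi.single a 1) = bb a.1 := by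
    intro a
    simp [E, Fintype.linearCombination_apply_single]
  have hT : ∀ a a' : {a // a ≠ w}, T (Pi.single a' 1) a = ρ a.1 a.2 (i (bb a'.1)) := by
    intro a a'
    simp [T, R, hE]
  have hsurj : Surjective T := by
    have key : ∀ (d : ℕ) (a' : {a // a ≠ w}), deg a'.1 = d →
        (Pi.single a' 1 : {a // a ≠ w} → S) ∈ range T := by
      intro d
      induction d using Nat.strong_induction_on with
      | _ d ih =>
        intro a' hd
        have e1 : (Pi.single a' 1 : {a // a ≠ w} → S) = -T (Pi.single a' 1) +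
            ∑ a ∈ Finset.univ.erase a', T (Pi.single a' 1) a •
              (Pi.single a 1 : {a // a ≠ w} → S) := by
          have e2 := pi_eq_sum_univ' (T (Pi.single a' 1))
          rw [← Finset.add_sum_erase _ _ (Finset.mem_univ a'), hT, h1] at e2
          rw [eq_neg_add_iff_add_eq]
          nth_rewrite 1 [e2]
          simp
        rw [e1]
        refine add_mem (neg_mem (mem_range_self _ _)) (Submodule.sum_mem _ ?_)
        intro a ha
        by_cases h0 : T (Pi.single a' 1) a = 0
        · rw [h0, zero_smul]; exact zero_mem _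
        · refine Submodule.smul_mem _ _ (ih (deg a.1) ?_ a rfl)
          rw [hT] at h0
          rw [← hd]
          refine h2 _ _ _ ?_ h0
          intro h3
          exact (Finset.mem_erase.mp ha).1 (Subtype.ext h3.symm)
    rw [← LinearMap.range_eq_top, eq_top_iff]
    intro x _
    rw [pi_eq_sum_univ' x]
    exact Submodule.sum_mem _ (fun a _ => Submodule.smul_mem _ _ (key _ a rfl))
  have hinj : Injective T := OrzechProperty.injective_of_surjective_endomorphism T hsurj
  have hz : ∀ z, f (i z) = 0 := fun z => (hex _).mpr ⟨z, rfl⟩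
  obtain ⟨c0, hc0⟩ := hsurj (R (i (bb w)))
  let y0 : F := i (bb w - E c0)
  have hy0 : R y0 = 0 := by
    simp only [y0, map_sub]
    rw [← hc0]
    exact sub_self _
  refine Syz.of_exact (inv_gen 1) (ker (f.prod R)).subtype (f.prod R)
    (Submodule.injective_subtype _) ?_ ?_ ?_
  · rintro ⟨m, c⟩
    obtain ⟨y, rfl⟩ := hf m
    obtain ⟨c', hc'⟩ := hsurj (c - R y)
    refine ⟨y + i (E c'), Prod.ext ?_ ?_⟩
    · simp [hz]
    · change R (y + i (E c')) = c
      rw [map_add]
      have : R (i (E c')) = c - R y := hc'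
      rw [this, add_sub_cancel]
  · intro y
    exact ⟨fun h => ⟨⟨y, h⟩, rfl⟩, by rintro ⟨⟨z, hz⟩, rfl⟩; exact hz⟩
  · have hmem : y0 ∈ ker (f.prod R) := by
      rw [mem_ker]
      exact Prod.ext (hz _) hy0
    refine ⟨1, le_rfl, Fintype.linearCombination S (fun _ => ⟨y0, hmem⟩), ?_⟩
    rintro ⟨y, hy⟩
    have hy1 : f y = 0 := congrArg Prod.fst hy
    have hy2 : R y = 0 := congrArg Prod.snd hy
    obtain ⟨z, rfl⟩ := (hex y).mp hy1
    refine ⟨fun _ => bb.repr z w, Subtype.ext ?_⟩
    have e1 : z = bb.repr z w • bb w + E (fun a => bb.repr z a.1) := by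
      nth_rewrite 1 [← bb.sum_repr z]
      rw [← Finset.add_sum_erase _ _ (Finset.mem_univ w)]
      congr 1
      simp only [E, Fintype.linearCombination_apply]
      exact Finset.sum_subtype _ (by simp) (fun a => bb.repr z a • bb a)
    have e2 : T ((fun a => bb.repr z a.1) + bb.repr z w • c0) = 0 := by
      rw [map_add, map_smul, hc0]
      rw [e1, map_add, map_add, map_smul, map_smul, add_comm] at hy2
      exact hy2
    have e3 : (fun a : {a // a ≠ w} => bb.repr z a.1) = -(bb.repr z w • c0) := by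
      rw [eq_neg_iff_add_eq_zero]
      exact hinj (e2.trans (map_zero T).symm)
    simp only [Fintype.linearCombination_apply, Finset.univ_unique, Finset.sum_singleton,
      SetLike.mk_smul_mk, y0]
    rw [← map_smul]
    congr 1
    nth_rewrite 2 [e1]
    rw [e3, map_neg, map_smul, smul_sub, sub_eq_add_neg]

theorem transfer {B Z F C : Type} [CommRing B] [Algebra S B] [Module.Free S B] [Module.Finite S B]
    [AddCommGroup Z] [Module B Z] [AddCommGroup F] [Module B F] (i : Z →ₗ[B] F)
    [AddCommGroup C] [Module S C] [Module.Free S C] [Module.Finite S C]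
    (H : ∀ (M : Type) [AddCommGroup M] [Module B M] [Module S M] [IsScalarTower S B M],
      Cok i M → Syz S (Gen S 1) 1 (M × C)) :
    ∀ (k : ℕ) (M : Type) [AddCommGroup M] [Module B M] [Module S M] [IsScalarTower S B M],
      Syz B (Cok i) (k + 1) M → Syz S (Gen S 1) (k + 2) M := by
  intro k
  induction k with
  | zero =>
    intro M _ _ _ _ h
    obtain ⟨r, f, hf, h⟩ := h
    exact Syz.of_exact_stable (inv_gen 1) ((ker f).subtype.restrictScalars S)
      (f.restrictScalars S) (Submodule.injective_subtype _) hf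
      (fun y => ⟨fun h => ⟨⟨y, h⟩, rfl⟩, by rintro ⟨⟨z, hz⟩, rfl⟩; exact hz⟩) (H _ h)
  | succ k ih =>
    intro M _ _ _ _ h
    obtain ⟨r, f, hf, h⟩ := h
    exact Syz.of_exact (inv_gen 1) ((ker f).subtype.restrictScalars S)
      (f.restrictScalars S) (Submodule.injective_subtype _) hf
      (fun y => ⟨fun h => ⟨⟨y, h⟩, rfl⟩, by rintro ⟨⟨z, hz⟩, rfl⟩; exact hz⟩) (ih _ h)

theorem exists_matrix {r r0 : ℕ} (U : Submodule S (Fin r0 → S)) (f : (Fin r → S) →ₗ[S] U)
    (hf : Surjective f) : ∃ d : Matrix (Fin r0) (Fin r) S, range d.mulVecLin = U ∧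
      ker d.mulVecLin = ker f := by
  refine ⟨LinearMap.toMatrix' (U.subtype ∘ₗ f), ?_, ?_⟩
  · rw [← Matrix.toLin'_apply', Matrix.toLin'_toMatrix', range_comp, range_eq_top.mpr hf]
    simp
  · rw [← Matrix.toLin'_apply', Matrix.toLin'_toMatrix']
    ext x
    simp

theorem exists_matrix' [IsNoetherianRing S] {r0 : ℕ} (U : Submodule S (Fin r0 → S)) :
    ∃ (r : ℕ) (d : Matrix (Fin r0) (Fin r) S), range d.mulVecLin = U := by
  obtain ⟨r, f, hf⟩ := Module.Finite.exists_fin' S U
  obtain ⟨d, hd, _⟩ := exists_matrix U f hf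
  exact ⟨r, d, hd⟩

theorem res_inf [IsNoetherianRing S] {r0 : ℕ} (U : Submodule S (Fin r0 → S)) :
    ∃ (r : ℕ → ℕ) (d0 : Matrix (Fin r0) (Fin (r 0)) S)
      (d : ∀ n, Matrix (Fin (r n)) (Fin (r (n + 1))) S),
      range d0.mulVecLin = U ∧ ker d0.mulVecLin = range (d 0).mulVecLin ∧
        ∀ n, ker (d n).mulVecLin = range (d (n + 1)).mulVecLin := by
  choose R D hD using fun p : (Σ r : ℕ, Submodule S (Fin r → S)) => exists_matrix' p.2
  let step : (Σ r : ℕ, Submodule S (Fin r → S)) → (Σ r : ℕ, Submodule S (Fin r → S)) :=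
    fun p => ⟨R p, ker (D p).mulVecLin⟩
  let seq : ℕ → (Σ r : ℕ, Submodule S (Fin r → S)) := fun n => Nat.rec ⟨r0, U⟩ (fun _ p => step p) n
  exact ⟨fun n => (seq (n + 1)).1, D (seq 0), fun n => D (seq (n + 1)), hD (seq 0),
    (hD (seq 1)).symm, fun n => (hD (seq (n + 2))).symm⟩

theorem conv [IsNoetherianRing S] (N : ℕ) : ∀ (m : ℕ) {r0 : ℕ} (U : Submodule S (Fin r0 → S)),
    Syz S (Gen S N) m U →
    ∃ (r : ℕ → ℕ) (d0 : Matrix (Fin r0) (Fin (r 0)) S)
      (d : ∀ n, Matrix (Fin (r n)) (Fin (r (n + 1))) S),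
      range d0.mulVecLin = U ∧ ker d0.mulVecLin = range (d 0).mulVecLin ∧
        (∀ n, ker (d n).mulVecLin = range (d (n + 1)).mulVecLin) ∧ r m ≤ N := by
  intro m
  induction m with
  | zero =>
    intro r0 U h
    obtain ⟨r, hr, f, hf⟩ := h
    obtain ⟨d0, h1, h2⟩ := exists_matrix U f hf
    obtain ⟨r', d0', d', h3, h4, h5⟩ := res_inf (ker f)
    refine ⟨fun n => Nat.casesOn n r r', d0,
      fun n => Nat.casesOn (motive := fun n => Matrix (Fin (Nat.casesOn (motive := fun _ => ℕ) n r r'))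
        (Fin (r' n)) S) n d0' d', h1, h2.trans h3.symm, ?_, hr⟩
    intro n
    cases n with
    | zero => exact h4
    | succ n => exact h5 n
  | succ m ih =>
    intro r0 U h
    obtain ⟨r, f, hf, h⟩ := h
    obtain ⟨d0, h1, h2⟩ := exists_matrix U f hf
    obtain ⟨r', d0', d', h3, h4, h5, h6⟩ := ih (ker f) h
    refine ⟨fun n => Nat.casesOn n r r', d0,
      fun n => Nat.casesOn (motive := fun n => Matrix (Fin (Nat.casesOn (motive := fun _ => ℕ) n r r'))
        (Fin (r' n)) S) n d0' d', h1, h2.trans h3.symm, ?_, h6⟩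
    intro n
    cases n with
    | zero => exact h4
    | succ n => exact h5 n

end Gens

end Pool.Agent.H268Z.Betti
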