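import Pool.Agent.H268Z.Betti.Kos
import Pool.Agent.Helper604.Glue

set_option autoImplicit false

namespace Pool.Agent.H268Z.Betti

open Function LinearMap MvPolynomial Pool.Agent.Helper604.Glue

variable (k : Type) [Field k] {n : ℕ} (g : Fin (n + 1) → ℕ)

theorem InS_gen (j : Fin (n + 1)) : InS g (g j : ℕ) := ⟨fun l => if l = j then 1 else 0, by simp⟩

theorem InS_add {a b : ℕ} (ha : InS g a) (hb : InS g b) : InS g ((a + b : ℕ) : ℤ) := by
  push_cast; exact ha.add hb

theorem InS_mul (q : ℕ) {a : ℕ} (ha : InS g a) : InS g ((q * a : ℕ) : ℤ) := by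
  push_cast; exact ha.nsmul q

/-- the semigroup ring -/
def AA : Subalgebra k (Polynomial k) where
  carrier := {p | ∀ m : ℕ, p.coeff m ≠ 0 → InS g m}
  mul_mem' := by
    intro p q hp hq m hm
    rw [Polynomial.coeff_mul] at hm
    obtain ⟨x, hx, h⟩ := Finset.exists_ne_zero_of_sum_ne_zero hm
    rw [Finset.HasAntidiagonal.mem_antidiagonal] at hx
    rw [← hx]
    exact InS_add g (hp _ (left_ne_zero_of_mul h)) (hq _ (right_ne_zero_of_mul h))
  add_mem' := by
    intro p q hp hq m hm
    rw [Polynomial.coeff_add] at hm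
    by_cases h : p.coeff m = 0
    · rw [h, zero_add] at hm; exact hq m hm
    · exact hp m h
  algebraMap_mem' := by
    intro r m hm
    rw [Polynomial.algebraMap_apply, Polynomial.coeff_C] at hm
    by_cases h : m = 0
    · subst h; exact InS_zero g
    · rw [if_neg h] at hm; exact absurd rfl hm

open Classical in
/-- the monomials of the semigroup ring -/
noncomputable def tt (m : ℕ) : AA k g :=
  if h : InS g m then ⟨Polynomial.X ^ m, by
    intro l hl
    rw [Polynomial.coeff_X_pow] at hl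
    by_cases h2 : l = m
    · rw [h2]; exact h
    · rw [if_neg h2] at hl; exact absurd rfl hl⟩ else 0

theorem tt_val {m : ℕ} (h : InS g m) : (tt k g m : Polynomial k) = Polynomial.X ^ m := by
  rw [tt, dif_pos h]

theorem tt_mul {a b : ℕ} (ha : InS g a) (hb : InS g b) :
    tt k g a * tt k g b = tt k g (a + b) := by
  apply Subtype.ext
  rw [MulMemClass.coe_mul, tt_val k g ha, tt_val k g hb, tt_val k g (InS_add g ha hb), pow_add]

theorem tt_pow (q : ℕ) {a : ℕ} (ha : InS g a) : tt k g a ^ q = tt k g (q * a) := by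
  apply Subtype.ext
  rw [SubmonoidClass.coe_pow, tt_val k g ha, tt_val k g (InS_mul g q ha), ← pow_mul, mul_comm]

theorem AA_sum (α : AA k g) : α = ∑ m ∈ α.1.support, α.1.coeff m • tt k g m := by
  apply Subtype.ext
  rw [AddSubmonoidClass.coe_finset_sum]
  nth_rewrite 1 [α.1.as_sum_support]
  apply Finset.sum_congr rfl
  intro m hm
  rw [SetLike.val_smul, tt_val k g (α.2 m (Polynomial.mem_support_iff.mp hm)),
    ← Polynomial.C_mul_X_pow_eq_monomial, Polynomial.smul_eq_C_mul]

/-- the structure map -/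
noncomputable def Phi : MvPolynomial (Fin (n + 1)) k →ₐ[k] MvPolynomial (Fin n) (AA k g) :=
  aeval (Fin.cons (C (tt k g (g 0))) X)

theorem Phi_zero : Phi k g (X 0) = C (tt k g (g 0)) := by simp [Phi]

theorem Phi_succ (j : Fin n) : Phi k g (X j.succ) = X j := by simp [Phi]

theorem Phi_mono (v : Fin (n + 1) →₀ ℕ) (c : k) :
    Phi k g (monomial v c) = monomial v.tail (c • tt k g (v 0 * g 0)) := by
  rw [Phi, aeval_monomial, Finsupp.prod_fintype _ _ (fun i => by simp), Fin.prod_univ_succ,
    monomial_eq, Finsupp.prod_fintype _ _ (fun i => by simp)]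
  simp only [Fin.cons_zero, Fin.cons_succ, Finsupp.tail_apply]
  rw [← tt_pow k g _ (InS_gen g 0), ← mul_assoc, Algebra.smul_def, map_mul, map_pow]
  rfl

/-- the Apery set -/
abbrev Ap : Type := {a : ℕ // InS g a ∧ ¬ InS g ((a : ℤ) - g 0)}

theorem Ap_uniq (a a' : Ap g) (q q' : ℕ) (h : a.1 + q * g 0 = a'.1 + q' * g 0) (h0 : 0 < g 0) :
    a = a' ∧ q = q' := by
  have key : ∀ (a a' : Ap g) (q q' : ℕ), a.1 + q * g 0 = a'.1 + q' * g 0 → ¬ q < q' := by
    intro a a' q q' h hq
    obtain ⟨d, rfl⟩ : ∃ d, q' = q + d + 1 := ⟨q' - q - 1, by omega⟩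
    apply a.2.2
    have h1 : a.1 = a'.1 + d * g 0 + g 0 := by nlinarith
    have h2 : (a.1 : ℤ) - g 0 = ((a'.1 + d * g 0 : ℕ) : ℤ) := by rw [h1]; push_cast; ring
    rw [h2]
    exact InS_add g a'.2.1 (InS_mul g d (InS_gen g 0))
  have h1 := key a a' q q' h
  have h2 := key a' a q' q h.symm
  have h3 : q = q' := by omega
  subst h3
  exact ⟨Subtype.ext (by omega), rfl⟩

theorem Ap_decomp (h0 : 0 < g 0) (m : ℕ) (hm : InS g m) :
    ∃ (a : Ap g) (q : ℕ), m = a.1 + q * g 0 := by
  induction m using Nat.strong_induction_on with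
  | _ m ih =>
    by_cases h : InS g ((m : ℤ) - g 0)
    · have h1 := h.nonneg
      have h2 : (m : ℤ) - g 0 = ((m - g 0 : ℕ) : ℤ) := by omega
      rw [h2] at h
      obtain ⟨a, q, hq⟩ := ih (m - g 0) (by omega) h
      exact ⟨a, q + 1, by rw [add_mul]; omega⟩
    · exact ⟨⟨m, hm, h⟩, 0, by simp⟩

theorem co (h0 : 0 < g 0) (s : MvPolynomial (Fin (n + 1)) k) (a a' : Ap g) (u : Fin n →₀ ℕ)
    (q : ℕ) [Decidable (a' = a)] :
    ((coeff u (Phi k g s * C (tt k g a'.1)) : AA k g) : Polynomial k).coeff (a.1 + q * g 0) =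
      if a' = a then coeff (Finsupp.cons q u) s else 0 := by
  classical
  induction s using MvPolynomial.induction_on' with
  | monomial v c =>
    rw [Phi_mono, mul_comm, C_mul_monomial, coeff_monomial, coeff_monomial]
    by_cases hu : v.tail = u
    · rw [if_pos hu, mul_smul_comm, tt_mul k g a'.2.1 (InS_mul g _ (InS_gen g 0)), SetLike.val_smul,
        tt_val k g (InS_add g a'.2.1 (InS_mul g _ (InS_gen g 0))), Polynomial.coeff_smul,
        Polynomial.coeff_X_pow]
      by_cases h : a.1 + q * g 0 = a'.1 + v 0 * g 0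
      · obtain ⟨h1, h2⟩ := Ap_uniq g a a' _ _ h h0
        rw [if_pos h, if_pos h1.symm, if_pos (by rw [h2, ← hu, Finsupp.cons_tail])]
        simp
      · rw [if_neg h, smul_zero]
        split_ifs with h1 h2
        · exfalso
          apply h
          rw [h1, h2, Finsupp.cons_zero]
        · rfl
        · rfl
    · rw [if_neg hu, if_neg (show ¬ v = Finsupp.cons q u by
        intro h; apply hu; rw [h, Finsupp.tail_cons])]
      simp
  | add p p' hp hp' =>
    rw [map_add, add_mul, coeff_add, AddMemClass.coe_add, Polynomial.coeff_add, hp, hp', coeff_add]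
    split_ifs <;> simp

/-- the algebra structure -/
@[reducible] noncomputable def alg :
    Algebra (MvPolynomial (Fin (n + 1)) k) (MvPolynomial (Fin n) (AA k g)) :=
  (Phi k g).toRingHom.toAlgebra

attribute [local instance] alg

theorem smul_eq (s : MvPolynomial (Fin (n + 1)) k) (b : MvPolynomial (Fin n) (AA k g)) :
    s • b = Phi k g s * b := rfl

/-- the basis vectors -/
noncomputable def vv (a : Ap g) : MvPolynomial (Fin n) (AA k g) := C (tt k g a.1)

theorem vv_li [Fintype (Ap g)] (h0 : 0 < g 0) :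
    LinearIndependent (MvPolynomial (Fin (n + 1)) k) (vv k g) := by
  classical
  refine (Fintype.linearIndependent_iff (R := MvPolynomial (Fin (n + 1)) k) (v := vv k g)).mpr ?_
  intro s hs a
  ext v
  have h1 := congrArg (fun b : MvPolynomial (Fin n) (AA k g) =>
    ((coeff v.tail b : AA k g) : Polynomial k).coeff (a.1 + v 0 * g 0)) hs
  simp only [smul_eq, vv] at h1
  rw [coeff_sum, AddSubmonoidClass.coe_finset_sum, Polynomial.finset_sum_coeff] at h1
  simp only [co k g h0, Finsupp.cons_tail] at h1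
  simpa using h1

theorem mono_eq (a : Ap g) (q : ℕ) (u : Fin n →₀ ℕ) (c : k) :
    monomial u (c • tt k g (a.1 + q * g 0)) =
      (monomial (Finsupp.cons q u) c : MvPolynomial (Fin (n + 1)) k) • vv k g a := by
  rw [smul_eq, Phi_mono, vv, mul_comm (monomial _ _), C_mul_monomial, Finsupp.tail_cons, Finsupp.cons_zero,
    mul_smul_comm, tt_mul k g a.2.1 (InS_mul g _ (InS_gen g 0))]

theorem vv_span (h0 : 0 < g 0) :
    ⊤ ≤ Submodule.span (MvPolynomial (Fin (n + 1)) k) (Set.range (vv k g)) := by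
  intro b hb
  clear hb
  induction b using MvPolynomial.induction_on' with
  | monomial u α =>
    rw [AA_sum k g α, map_sum]
    refine Submodule.sum_mem _ (fun m hm => ?_)
    obtain ⟨a, q, rfl⟩ := Ap_decomp g h0 m (α.2 m (Polynomial.mem_support_iff.mp hm))
    rw [mono_eq]
    exact Submodule.smul_mem _ _ (Submodule.subset_span ⟨a, rfl⟩)
  | add p p' hp hp' => exact add_mem hp hp'

theorem C_tt (a : Ap g) (q : ℕ) : C (tt k g (a.1 + q * g 0)) =
    ((X 0 : MvPolynomial (Fin (n + 1)) k) ^ q) • vv k g a := by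
  rw [smul_eq, map_pow, Phi_zero, vv, ← map_pow, ← map_mul, tt_pow k g _ (InS_gen g 0),
    tt_mul k g (InS_mul g _ (InS_gen g 0)) a.2.1, add_comm]

/-- the substitution values -/
noncomputable def tau (j : Fin n) : AA k g := tt k g (g j.succ)

theorem sub_Phi (s : MvPolynomial (Fin (n + 1)) k) :
    sub (tau k g) n (Phi k g s) = C (aeval (fun j => tt k g (g j)) s) := by
  have : ((sub (tau k g) n).restrictScalars k).comp (Phi k g) =
      ((Algebra.ofId (AA k g) (MvPolynomial (Fin n) (AA k g))).restrictScalars k).comp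
        (aeval (fun j => tt k g (g j))) := by
    apply MvPolynomial.algHom_ext
    intro j
    refine Fin.cases ?_ (fun j => ?_) j
    · simp [Phi_zero, sub_C, Algebra.ofId_apply]
    · simp [Phi_succ, sub_X, Algebra.ofId_apply, tau]
  exact AlgHom.congr_fun this s

theorem val_aeval (s : MvPolynomial (Fin (n + 1)) k) :
    ((aeval (fun j => tt k g (g j)) s : AA k g) : Polynomial k) =
      aeval (fun l => (Polynomial.X : Polynomial k) ^ g l) s := by
  have : (AA k g).val.comp (aeval (fun j => tt k g (g j))) =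
      aeval (fun l => (Polynomial.X : Polynomial k) ^ g l) := by
    apply MvPolynomial.algHom_ext
    intro j
    simp [tt_val k g (InS_gen g j)]
  exact AlgHom.congr_fun this s

theorem tt_surj (m : ℕ) (hm : InS g m) : ∃ s : MvPolynomial (Fin (n + 1)) k,
    aeval (fun j => tt k g (g j)) s = tt k g m := by
  obtain ⟨c, hc⟩ := id hm
  have hc' : ∑ j, c j * g j = m := by exact_mod_cast hc
  refine ⟨∏ j, X j ^ c j, Subtype.ext ?_⟩
  rw [val_aeval, tt_val k g hm, map_prod]
  simp only [map_pow, aeval_X, ← pow_mul]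
  rw [Finset.prod_pow_eq_pow_sum, ← hc']
  simp only [mul_comm]

theorem Ap_finite (F : ℤ) (hs : ∀ z : ℤ, InS g z ↔ ¬ InS g (F - z)) : Finite (Ap g) := by
  have : {a : ℕ | InS g a ∧ ¬ InS g ((a : ℤ) - g 0)}.Finite := by
    apply (Set.finite_Iic (F + g 0).toNat).subset
    rintro a ⟨_, ha⟩
    rw [hs, not_not] at ha
    have := ha.nonneg
    rw [Set.mem_Iic]
    omega
  exact this.to_subtype

theorem Ap_top (h0 : 0 < g 0) (F : ℤ) (hs : ∀ z : ℤ, InS g z ↔ ¬ InS g (F - z)) :
    ∃ w : Ap g, ∀ a : Ap g, a ≠ w → ∃ (j : Fin n) (c : Ap g), c.1 = a.1 + g j.succ := by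
  have hF : ¬ InS g F := by
    have h := (hs 0).mp (InS_zero g)
    rwa [_root_.sub_zero] at h
  have hw : InS g (F + g 0) := by
    rw [hs]
    intro h
    have := h.nonneg
    omega
  have hw0 := hw.nonneg
  have e : (((F + g 0).toNat : ℕ) : ℤ) = F + g 0 := Int.toNat_of_nonneg hw0
  refine ⟨⟨(F + g 0).toNat, by rw [e]; exact hw, by rw [e, add_sub_cancel_right]; exact hF⟩, ?_⟩
  intro a ha
  have h1 : InS g (F - ((a.1 : ℤ) - g 0)) := by
    have := a.2.2
    rwa [hs, not_not] at this
  obtain ⟨c, hc⟩ := h1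
  have h2 : ∃ l, c l ≠ 0 := by
    by_contra hcon
    push Not at hcon
    apply ha
    apply Subtype.ext
    rw [Finset.sum_eq_zero (fun j _ => by rw [hcon j, zero_mul])] at hc
    simp only
    omega
  obtain ⟨l, hl⟩ := h2
  have h3 : InS g (F - ((a.1 : ℤ) - g 0) - g l) := by
    refine ⟨fun j => c j - if j = l then 1 else 0, ?_⟩
    rw [← hc, ← Finset.add_sum_erase Finset.univ (fun i => c i * g i) (Finset.mem_univ l),
      ← Finset.add_sum_erase Finset.univ (fun i => (c i - if i = l then 1 else 0) * g i)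
        (Finset.mem_univ l)]
    have h4 : ∑ x ∈ Finset.univ.erase l, (c x - if x = l then 1 else 0) * g x =
        ∑ x ∈ Finset.univ.erase l, c x * g x := by
      apply Finset.sum_congr rfl
      intro x hx
      rw [if_neg (Finset.mem_erase.mp hx).1, Nat.sub_zero]
    rw [h4]
    obtain ⟨m, hm⟩ : ∃ m, c l = m + 1 := ⟨c l - 1, by omega⟩
    rw [hm]
    simp only [if_true, Nat.add_sub_cancel]
    push_cast
    ring
  have h5 : ¬ InS g (((a.1 + g l : ℕ) : ℤ) - g 0) := by
    intro h
    apply hF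
    have := h.add h3
    push_cast at this
    convert this using 1
    ring
  revert h5
  refine Fin.cases ?_ (fun j => ?_) l
  · intro h5
    exfalso
    apply h5
    push_cast
    rw [add_sub_cancel_right]
    exact a.2.1
  · intro h5
    exact ⟨j, ⟨a.1 + g j.succ, InS_add g a.2.1 (InS_gen g _), h5⟩, rfl⟩

theorem psi_vv (j : Fin n) (a c : Ap g) (q : ℕ) (h : a.1 + g j.succ = c.1 + q * g 0) :
    psi (tau k g) j * vv k g a = (X j.succ : MvPolynomial (Fin (n + 1)) k) • vv k g a -
      ((X 0 : MvPolynomial (Fin (n + 1)) k) ^ q) • vv k g c := by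
  rw [← C_tt, ← h, smul_eq, Phi_succ, psi, sub_mul, vv, tau, ← map_mul,
    tt_mul k g (InS_gen g _) a.2.1, add_comm (g _)]

theorem top_one {m : ℕ} (g : Fin (m + 3 + 1) → ℕ) (hg : ∀ j, 0 < g j) (F : ℤ)
    (hs : ∀ z : ℤ, InS g z ↔ ¬ InS g (F - z)) :
    ∃ U : Submodule (MvPolynomial (Fin (m + 3 + 1)) k) (Fin 1 → MvPolynomial (Fin (m + 3 + 1)) k),
      (∀ v, v ∈ U ↔ ∀ a, v a ∈ RingHom.ker
        (aeval (fun l => (Polynomial.X : Polynomial k) ^ g l))) ∧
      Syz (MvPolynomial (Fin (m + 3 + 1)) k) (Gen (MvPolynomial (Fin (m + 3 + 1)) k) 1) (m + 2) U := by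
  classical
  have := Ap_finite g F hs
  have : Fintype (Ap g) := Fintype.ofFinite _
  let bb : Module.Basis (Ap g) (MvPolynomial (Fin (m + 3 + 1)) k)
      (MvPolynomial (Fin (m + 3)) (AA k g)) :=
    Module.Basis.mk (vv_li k g (hg 0)) (vv_span k g (hg 0))
  have hbb : ∀ a, bb a = vv k g a := fun a => Module.Basis.mk_apply _ _ a
  have : Module.Free (MvPolynomial (Fin (m + 3 + 1)) k) (MvPolynomial (Fin (m + 3)) (AA k g)) :=
    Module.Free.of_basis bb
  have : Module.Finite (MvPolynomial (Fin (m + 3 + 1)) k) (MvPolynomial (Fin (m + 3)) (AA k g)) :=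
    Module.Finite.of_basis bb
  obtain ⟨w, hw⟩ := Ap_top g (hg 0) F hs
  choose jj cc hcc using hw
  obtain ⟨G, _, _, _, _, i, hi, hp, hK⟩ := koszul (tau k g) (m + 2) le_rfl
  choose pp hpp using hp
  let _ : Module (MvPolynomial (Fin (m + 3 + 1)) k) G := Module.compHom G
    (algebraMap (MvPolynomial (Fin (m + 3 + 1)) k) (MvPolynomial (Fin (m + 3)) (AA k g)))
  have : IsScalarTower (MvPolynomial (Fin (m + 3 + 1)) k) (MvPolynomial (Fin (m + 3)) (AA k g)) G :=
    IsScalarTower.of_algebraMap_smul (fun _ _ => rfl)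
  have : Module.Free (MvPolynomial (Fin (m + 3 + 1)) k) G :=
    Module.Free.trans (S := MvPolynomial (Fin (m + 3)) (AA k g))
  have : Module.Finite (MvPolynomial (Fin (m + 3 + 1)) k) G :=
    Module.Finite.trans (MvPolynomial (Fin (m + 3)) (AA k g)) G
  have h1 := transfer (S := MvPolynomial (Fin (m + 3 + 1)) k) i
    (C := {a // a ≠ w} → MvPolynomial (Fin (m + 3 + 1)) k) ?_ (m + 1) _ hK
  · let p : (Fin 1 → MvPolynomial (Fin (m + 3 + 1)) k) →ₗ[MvPolynomial (Fin (m + 3 + 1)) k]
        (MvPolynomial (Fin (m + 3)) (AA k g) ⧸ JJ (tau k g) (m + 2 + 1)) :=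
      Fintype.linearCombination _ (fun _ => Submodule.Quotient.mk 1)
    have hp : ∀ v, p v = Submodule.Quotient.mk (Phi k g (v 0)) := by
      intro v
      simp only [p, Fintype.linearCombination_apply, Finset.univ_unique, Finset.sum_singleton]
      rw [← Submodule.Quotient.mk_smul, smul_eq, mul_one]
      rfl
    refine ⟨ker p, ?_, Syz.schanuel (inv_gen 1) p ?_ h1⟩
    · intro v
      rw [mem_ker, hp, Submodule.Quotient.mk_eq_zero, mem_JJ, sub_Phi, C_eq_zero]
      constructor
      · intro h a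
        rw [Subsingleton.elim a 0, RingHom.mem_ker, ← val_aeval, h]
        rfl
      · intro h
        apply Subtype.ext
        rw [val_aeval]
        exact h 0
    · rw [← LinearMap.range_eq_top, eq_top_iff]
      intro x _
      obtain ⟨b, rfl⟩ := Submodule.Quotient.mk_surjective _ x
      rw [← bb.sum_repr b]
      change ((JJ (tau k g) (m + 2 + 1)).mkQ.restrictScalars (MvPolynomial (Fin (m + 3 + 1)) k))
        _ ∈ _
      rw [map_sum]
      refine Submodule.sum_mem _ (fun a _ => ?_)
      rw [map_smul]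
      refine Submodule.smul_mem _ _ ?_
      obtain ⟨s, hs'⟩ := tt_surj k g a.1 a.2.1
      refine ⟨fun _ => s, ?_⟩
      rw [hp, hbb]
      change _ = Submodule.Quotient.mk _
      rw [Submodule.Quotient.eq, mem_JJ, map_sub, sub_Phi, hs', vv, sub_C, sub_self]
  · intro M _ _ _ _ hM
    obtain ⟨f, hf, hex⟩ := hM
    refine stable_one bb w (fun a => a.1) (i.restrictScalars _)
      (fun a ha => bb.coord (cc a ha) ∘ₗ (pp (jj a ha) (jj a ha).2).restrictScalars _)
      ?_ ?_ (f.restrictScalars _) hf hex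
    · intro a ha
      change bb.coord (cc a ha) (pp _ _ (i (bb a))) = -1
      have hne : ¬ a = cc a ha := by
        intro h
        have h1 := hcc a ha
        rw [← h] at h1
        have := hg (jj a ha).succ
        omega
      rw [hpp, hbb, psi_vv k g (jj a ha) a (cc a ha) 0 (by rw [hcc]; simp), ← hbb, ← hbb, map_sub,
        map_smul, map_smul, Module.Basis.coord_apply, Module.Basis.coord_apply, bb.repr_self,
        bb.repr_self, Finsupp.single_eq_same, Finsupp.single_apply, if_neg hne]
      simp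
    · intro a ha a' hne h
      change bb.coord (cc a ha) (pp _ _ (i (bb a'))) ≠ 0 at h
      obtain ⟨c', q, hq⟩ := Ap_decomp g (hg 0) _ (InS_add g a'.2.1 (InS_gen g (jj a ha).succ))
      rw [hpp, hbb, psi_vv k g (jj a ha) a' c' q hq, ← hbb, ← hbb, map_sub,
        map_smul, map_smul, Module.Basis.coord_apply, Module.Basis.coord_apply, bb.repr_self,
        bb.repr_self, Finsupp.single_apply, Finsupp.single_apply] at h
      have h1 := hcc a ha
      have h2 := hg (jj a ha).succ
      have h3 : a'.1 ≠ a.1 := fun h => hne (Subtype.ext h)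
      by_cases h4 : a' = cc a ha
      · rw [← h4] at h1
        omega
      · by_cases h5 : c' = cc a ha
        · rw [← h5] at h1
          omega
        · rw [if_neg h4, if_neg h5] at h
          simp at h

end Pool.Agent.H268Z.Betti
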