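import Mathlib

set_option autoImplicit false

namespace Pool.Agent.H268Z.Betti

open Function LinearMap

section Gen

variable {S : Type} [CommRing S]

/-- the `n`-th syzygy module of some finite free resolution satisfies `Q` -/
def Syz (S : Type) [CommRing S] (Q : ∀ (M : Type) [AddCommGroup M] [Module S M], Prop) :
    ℕ → ∀ (M : Type) [AddCommGroup M] [Module S M], Prop
  | 0, M, _, _ => Q M
  | n + 1, M, _, _ => ∃ r : ℕ, ∃ f : (Fin r → S) →ₗ[S] M, Surjective f ∧ Syz S Q n (ker f)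

/-- invariance under isomorphism -/
def Inv (S : Type) [CommRing S] (Q : ∀ (M : Type) [AddCommGroup M] [Module S M], Prop) : Prop :=
  ∀ (M M' : Type) [AddCommGroup M] [Module S M] [AddCommGroup M'] [Module S M'],
    (M ≃ₗ[S] M') → Q M → Q M'

variable {Q : ∀ (M : Type) [AddCommGroup M] [Module S M], Prop}

theorem Syz.equiv (hQ : Inv S Q) : ∀ (n : ℕ) {M M' : Type} [AddCommGroup M] [Module S M]
    [AddCommGroup M'] [Module S M'] (_ : M ≃ₗ[S] M'), Syz S Q n M → Syz S Q n M'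
  | 0, M, M', _, _, _, _, e, h => hQ M M' e h
  | n + 1, M, M', _, _, _, _, e, h => by
    obtain ⟨r, f, hf, h⟩ := h
    refine ⟨r, e.toLinearMap ∘ₗ f, e.surjective.comp hf, ?_⟩
    exact Syz.equiv hQ n (LinearEquiv.ofEq _ _ (by ext x; simp)) h

theorem exists_fin_equiv (F : Type) [AddCommGroup F] [Module S F] [Module.Free S F]
    [Module.Finite S F] : ∃ r : ℕ, Nonempty ((Fin r → S) ≃ₗ[S] F) := by
  classical
  rcases subsingleton_or_nontrivial S with hS | hS
  · have : Subsingleton F := Module.subsingleton S F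
    exact ⟨0, ⟨LinearEquiv.ofSubsingleton _ _⟩⟩
  · exact ⟨_, ⟨(Module.finBasis S F).equivFun.symm⟩⟩

theorem Syz.of_exact (hQ : Inv S Q) {n : ℕ} {Z F M : Type} [AddCommGroup Z] [Module S Z]
    [AddCommGroup F] [Module S F] [AddCommGroup M] [Module S M] [Module.Free S F]
    [Module.Finite S F] (j : Z →ₗ[S] F) (f : F →ₗ[S] M) (hj : Injective j) (hf : Surjective f)
    (hex : ∀ y, f y = 0 ↔ ∃ z, j z = y) (h : Syz S Q n Z) : Syz S Q (n + 1) M := by
  obtain ⟨r, ⟨e⟩⟩ := exists_fin_equiv (S := S) F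
  refine ⟨r, f ∘ₗ e.toLinearMap, hf.comp e.surjective, ?_⟩
  refine Syz.equiv hQ n (LinearEquiv.ofBijective
    ((e.symm.toLinearMap ∘ₗ j).codRestrict (ker (f ∘ₗ e.toLinearMap)) ?_) ⟨?_, ?_⟩) h
  · intro z
    simp only [mem_ker, coe_comp, LinearEquiv.coe_coe, comp_apply, LinearEquiv.apply_symm_apply]
    exact (hex _).mpr ⟨z, rfl⟩
  · intro a b hab
    have h1 := congrArg Subtype.val hab
    simp only [codRestrict_apply, coe_comp, LinearEquiv.coe_coe, comp_apply] at h1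
    exact hj (e.symm.injective h1)
  · rintro ⟨y, hy⟩
    simp only [mem_ker, coe_comp, LinearEquiv.coe_coe, comp_apply] at hy
    obtain ⟨z, hz⟩ := (hex _).mp hy
    refine ⟨z, Subtype.ext ?_⟩
    simp [hz]

theorem Syz.prod_free (hQ : Inv S Q) {n : ℕ} {M : Type} (C : Type) [AddCommGroup M] [Module S M]
    [AddCommGroup C] [Module S C] [Module.Free S C] [Module.Finite S C]
    (h : Syz S Q (n + 1) M) : Syz S Q (n + 1) (M × C) := by
  obtain ⟨r, f, hf, h⟩ := h
  refine Syz.of_exact hQ (inl S (Fin r → S) C ∘ₗ (ker f).subtype) (f.prodMap LinearMap.id)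
    ?_ ?_ ?_ h
  · intro a b hab
    simp only [coe_comp, comp_apply, inl_apply, Prod.mk.injEq, and_true] at hab
    exact Subtype.ext hab
  · rintro ⟨m, c⟩
    obtain ⟨x, rfl⟩ := hf m
    exact ⟨(x, c), rfl⟩
  · rintro ⟨x, c⟩
    constructor
    · intro h0
      simp only [prodMap_apply, id_coe, id_eq, Prod.mk_eq_zero] at h0
      exact ⟨⟨x, h0.1⟩, by simp [h0.2]⟩
    · rintro ⟨⟨z, hz⟩, h0⟩
      simp only [coe_comp, comp_apply, inl_apply, Prod.mk.injEq, Submodule.subtype_apply] at h0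
      obtain ⟨rfl, rfl⟩ := h0
      simpa using hz

theorem Syz.of_exact_stable (hQ : Inv S Q) {n : ℕ} {Z F M C : Type} [AddCommGroup Z] [Module S Z]
    [AddCommGroup F] [Module S F] [AddCommGroup M] [Module S M] [Module.Free S F]
    [Module.Finite S F] [AddCommGroup C] [Module S C] [Module.Free S C] [Module.Finite S C]
    (j : Z →ₗ[S] F) (f : F →ₗ[S] M) (hj : Injective j) (hf : Surjective f)
    (hex : ∀ y, f y = 0 ↔ ∃ z, j z = y) (h : Syz S Q n (Z × C)) : Syz S Q (n + 1) M := by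
  refine Syz.of_exact hQ (j.prodMap (LinearMap.id : C →ₗ[S] C)) (f ∘ₗ fst S F C) ?_ ?_ ?_ h
  · rintro ⟨a, c⟩ ⟨b, d⟩ hab
    simp only [prodMap_apply, id_coe, id_eq, Prod.mk.injEq] at hab
    exact Prod.ext (hj hab.1) hab.2
  · intro m
    obtain ⟨x, rfl⟩ := hf m
    exact ⟨(x, 0), rfl⟩
  · rintro ⟨x, c⟩
    constructor
    · intro h0
      obtain ⟨z, rfl⟩ := (hex x).mp h0
      exact ⟨(z, c), rfl⟩
    · rintro ⟨⟨z, d⟩, h0⟩
      simp only [prodMap_apply, id_coe, id_eq, Prod.mk.injEq] at h0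
      exact (hex x).mpr ⟨z, h0.1⟩

theorem Syz.of_prod (hQ : Inv S Q) {n : ℕ} {M : Type} (C : Type) [AddCommGroup M] [Module S M]
    [AddCommGroup C] [Module S C] [Module.Free S C] [Module.Finite S C]
    (h : Syz S Q (n + 2) (M × C)) : Syz S Q (n + 2) M := by
  obtain ⟨r, f, hf, h⟩ := h
  have h2 := Syz.prod_free hQ C h
  obtain ⟨s, hs⟩ := Module.projective_lifting_property f (inr S M C) hf
  have hs' : ∀ c, f (s c) = (0, c) := fun c => LinearMap.congr_fun hs c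
  refine Syz.of_exact hQ ((ker f).subtype.coprod s) (fst S M C ∘ₗ f) ?_ ?_ ?_ h2
  · rw [← LinearMap.ker_eq_bot, eq_bot_iff]
    rintro ⟨⟨z, hz⟩, c⟩ h0
    simp only [mem_ker, coprod_apply, Submodule.subtype_apply] at h0 hz
    have h1 := congrArg f h0
    rw [map_add, hz, hs', map_zero, zero_add] at h1
    have hc : c = 0 := congrArg Prod.snd h1
    subst hc
    rw [map_zero, add_zero] at h0
    subst h0
    rfl
  · intro m
    obtain ⟨x, hx⟩ := hf (m, 0)
    exact ⟨x, by simp [hx]⟩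
  · intro x
    constructor
    · intro h0
      refine ⟨(⟨x - s (f x).2, ?_⟩, (f x).2), by simp⟩
      rw [mem_ker, map_sub, hs']
      have : (f x).1 = 0 := h0
      ext
      · simp [this]
      · simp
    · rintro ⟨⟨⟨z, hz⟩, c⟩, rfl⟩
      simp only [mem_ker] at hz
      simp [hz, hs']

theorem Syz.schanuel (hQ : Inv S Q) {n : ℕ} {A G : Type} [AddCommGroup A] [Module S A]
    [AddCommGroup G] [Module S G] [Module.Free S G] [Module.Finite S G]
    (p : G →ₗ[S] A) (hp : Surjective p) (h : Syz S Q (n + 3) A) : Syz S Q (n + 2) (ker p) := by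
  obtain ⟨r, f, hf, h⟩ := h
  have h2 := Syz.prod_free hQ G h
  obtain ⟨l, hl⟩ := Module.projective_lifting_property f p hf
  obtain ⟨m, hm⟩ := Module.projective_lifting_property p f hp
  have hl' : ∀ y, f (l y) = p y := fun c => LinearMap.congr_fun hl c
  have hm' : ∀ y, p (m y) = f y := fun c => LinearMap.congr_fun hm c
  refine Syz.of_prod hQ (Fin r → S) (Syz.equiv hQ _ ?_ h2)
  let X : (ker f × G) →ₗ[S] (Fin r → S) := (ker f).subtype.coprod l
  let Y : (ker f × G) →ₗ[S] G := snd S _ _ - m ∘ₗ X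
  have hY : ∀ a, Y a ∈ ker p := by
    rintro ⟨⟨z, hz⟩, y⟩
    simp only [mem_ker] at hz
    simp [X, Y, hm', hl', hz]
  refine LinearEquiv.ofBijective ((Y.codRestrict _ hY).prod X) ⟨?_, ?_⟩
  · rw [← LinearMap.ker_eq_bot, eq_bot_iff]
    rintro ⟨⟨z, hz⟩, y⟩ h0
    rw [mem_ker] at h0
    have h1 : X (⟨z, hz⟩, y) = 0 := congrArg Prod.snd h0
    have h3 : Y (⟨z, hz⟩, y) = 0 := congrArg Subtype.val (congrArg Prod.fst h0)
    have h4 : y = 0 := by
      simp only [Y, LinearMap.sub_apply, snd_apply, coe_comp, comp_apply, h1, map_zero,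
        sub_zero] at h3
      exact h3
    subst h4
    have h5 : z = 0 := by simpa [X] using h1
    subst h5
    rfl
  · rintro ⟨⟨v, hv⟩, x⟩
    simp only [mem_ker] at hv
    refine ⟨(⟨x - l (v + m x), by simp [hl', hm', hv]⟩, v + m x), ?_⟩
    have h1 : X (⟨x - l (v + m x), by simp [hl', hm', hv]⟩, v + m x) = x := by simp [X]
    refine Prod.ext (Subtype.ext ?_) h1
    change Y _ = v
    simp only [Y, LinearMap.sub_apply, snd_apply, coe_comp, comp_apply, h1]
    simp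

end Gen

section Cone

variable {B : Type} [CommRing B]

/-- `M` is the cokernel of `i` -/
def Cok {Z F : Type} [AddCommGroup Z] [Module B Z] [AddCommGroup F] [Module B F]
    (i : Z →ₗ[B] F) (M : Type) [AddCommGroup M] [Module B M] : Prop :=
  ∃ f : F →ₗ[B] M, Surjective f ∧ ∀ y, f y = 0 ↔ ∃ z, i z = y

theorem inv_cok {Z F : Type} [AddCommGroup Z] [Module B Z] [AddCommGroup F] [Module B F]
    (i : Z →ₗ[B] F) : Inv B (Cok i) := by
  rintro M M' _ _ _ _ e ⟨f, hf, h⟩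
  refine ⟨e.toLinearMap ∘ₗ f, e.surjective.comp hf, fun y => ?_⟩
  rw [← h]
  simp

theorem core {N G W F0 Z1 : Type} [AddCommGroup N] [Module B N] [AddCommGroup G] [Module B G]
    [AddCommGroup W] [Module B W] [AddCommGroup F0] [Module B F0] [AddCommGroup Z1] [Module B Z1]
    (ψ : B) (j : N →ₗ[B] G) (π : (N × G) →ₗ[B] W)
    (hreg : ∀ x, ψ • x = 0 → j x = 0 → x = 0)
    (hker : ∀ y, π y = 0 ↔ ∃ x, (ψ • x, j x) = y)
    (f : F0 →ₗ[B] N) (hf : Surjective f) (j1 : Z1 →ₗ[B] F0) (hj1 : Injective j1)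
    (hex : ∀ y, f y = 0 ↔ ∃ z, j1 z = y) :
    ∃ π1 : (Z1 × F0) →ₗ[B] ker (π ∘ₗ f.prodMap LinearMap.id), Surjective π1 ∧
      ∀ y, π1 y = 0 ↔ ∃ x, ((-ψ) • x, j1 x) = y := by
  let q : (Z1 × F0) →ₗ[B] (F0 × G) :=
    (j1.coprod (ψ • LinearMap.id)).prod (j ∘ₗ f ∘ₗ snd B Z1 F0)
  have hq : ∀ z y, q (z, y) = (j1 z + ψ • y, j (f y)) := fun z y => rfl
  have hz : ∀ z, f (j1 z) = 0 := fun z => (hex _).mpr ⟨z, rfl⟩
  have hmem : ∀ a, q a ∈ ker (π ∘ₗ f.prodMap LinearMap.id) := by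
    rintro ⟨z, y⟩
    rw [mem_ker, hq]
    change π (f (j1 z + ψ • y), j (f y)) = 0
    rw [hker]
    exact ⟨f y, by rw [map_add, hz, zero_add, map_smul]⟩
  refine ⟨q.codRestrict _ hmem, ?_, ?_⟩
  · rintro ⟨⟨x, y⟩, hxy⟩
    have h1 : π (f x, y) = 0 := hxy
    obtain ⟨n, hn⟩ := (hker _).mp h1
    obtain ⟨y0, rfl⟩ := hf n
    simp only [Prod.mk.injEq] at hn
    obtain ⟨z, hz'⟩ := (hex (x - ψ • y0)).mp (by rw [map_sub, map_smul, hn.1, sub_self])
    refine ⟨(z, y0), Subtype.ext ?_⟩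
    change q (z, y0) = (x, y)
    rw [hq, hz', hn.2, sub_add_cancel]
  · rintro ⟨z, y⟩
    constructor
    · intro h0
      have h1 : q (z, y) = 0 := congrArg Subtype.val h0
      rw [hq, Prod.mk_eq_zero] at h1
      have h2 : f y = 0 := by
        apply hreg _ _ h1.2
        have := congrArg f h1.1
        rwa [map_add, hz, zero_add, map_smul, map_zero] at this
      obtain ⟨x, rfl⟩ := (hex y).mp h2
      refine ⟨x, Prod.ext (hj1 ?_) rfl⟩
      simp only [map_smul, neg_smul, map_neg]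
      exact (eq_neg_of_add_eq_zero_left h1.1).symm
    · rintro ⟨x, hx⟩
      simp only [Prod.mk.injEq] at hx
      obtain ⟨rfl, rfl⟩ := hx
      apply Subtype.ext
      change q _ = 0
      rw [hq, hz]
      simp

theorem cone {Z F : Type} [AddCommGroup Z] [Module B Z] [AddCommGroup F] [Module B F]
    [Module.Free B F] [Module.Finite B F] (i : Z →ₗ[B] F) (hi : Injective i) :
    ∀ (k : ℕ) (ψ : B) {N G W : Type} [AddCommGroup N] [Module B N] [AddCommGroup G] [Module B G]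
    [AddCommGroup W] [Module B W] [Module.Free B G] [Module.Finite B G]
    (j : N →ₗ[B] G) (π : (N × G) →ₗ[B] W),
    (∀ x, ψ • x = 0 → j x = 0 → x = 0) → Surjective π →
    (∀ y, π y = 0 ↔ ∃ x, (ψ • x, j x) = y) → Syz B (Cok i) k N →
    Syz B (Cok ((((-1) ^ (k + 1) * ψ) • (LinearMap.id : Z →ₗ[B] Z)).prod i)) (k + 1) W := by
  intro k
  induction k with
  | zero =>
    intro ψ N G W _ _ _ _ _ _ _ _ j π hreg hπ hker h
    obtain ⟨f, hf, hex⟩ := h
    obtain ⟨π1, h1, h2⟩ := core ψ j π hreg hker f hf i hi hex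
    refine Syz.of_exact (inv_cok _) (ker (π ∘ₗ f.prodMap LinearMap.id)).subtype
      (π ∘ₗ f.prodMap LinearMap.id) (Submodule.injective_subtype _) ?_ ?_ ⟨π1, h1, ?_⟩
    · refine hπ.comp ?_
      rintro ⟨n, g⟩
      obtain ⟨x, rfl⟩ := hf n
      exact ⟨(x, g), rfl⟩
    · intro y
      exact ⟨fun h => ⟨⟨y, h⟩, rfl⟩, by rintro ⟨⟨z, hz⟩, rfl⟩; exact hz⟩
    · intro y
      rw [h2]
      simp
  | succ k ih =>
    intro ψ N G W _ _ _ _ _ _ _ _ j π hreg hπ hker h
    obtain ⟨r, f, hf, h⟩ := h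
    obtain ⟨π1, h1, h2⟩ := core ψ j π hreg hker f hf (ker f).subtype
      (Submodule.injective_subtype _)
      (fun y => ⟨fun h => ⟨⟨y, h⟩, rfl⟩, by rintro ⟨⟨z, hz⟩, rfl⟩; exact hz⟩)
    have h3 := ih (-ψ) (ker f).subtype π1 (fun x _ hx => Subtype.ext hx) h1 h2 h
    have e : (-1) ^ (k + 1) * -ψ = (-1) ^ (k + 1 + 1) * ψ := by ring
    rw [e] at h3
    refine Syz.of_exact (inv_cok _) (ker (π ∘ₗ f.prodMap LinearMap.id)).subtype
      (π ∘ₗ f.prodMap LinearMap.id) (Submodule.injective_subtype _) ?_ ?_ h3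
    · refine hπ.comp ?_
      rintro ⟨n, g⟩
      obtain ⟨x, rfl⟩ := hf n
      exact ⟨(x, g), rfl⟩
    · intro y
      exact ⟨fun h => ⟨⟨y, h⟩, rfl⟩, by rintro ⟨⟨z, hz⟩, rfl⟩; exact hz⟩

end Cone

end Pool.Agent.H268Z.Betti
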